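import Mathlib

set_option autoImplicit false

namespace Pool.Agent.H.MP_4a5947_co

inductive P
  | a0 | a1 | a2 | a3 | a4 | a5 | a6 | a7 | a8
  deriving DecidableEq

open P

instance : Fintype P := ⟨{a0, a1, a2, a3, a4, a5, a6, a7, a8}, fun x => by cases x <;> simp⟩

/-- level in the long branch -/
def lev : P → ℕ
  | a0 => 0 | a1 => 1 | a2 => 1 | a3 => 1 | a4 => 2 | a5 => 2 | a6 => 3 | a7 => 3 | a8 => 4

def ltb (x y : P) : Bool :=
  decide (lev x < lev y) && (decide (x ≠ a1) || decide (y = a8))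

instance : PartialOrder P where
  le x y := x = y ∨ ltb x y = true
  lt x y := ltb x y = true
  le_refl _ := Or.inl rfl
  le_trans := by decide
  le_antisymm := by decide
  lt_iff_le_not_ge := by decide

instance (x y : P) : Decidable (x ≤ y) := inferInstanceAs (Decidable (x = y ∨ ltb x y = true))
instance (x y : P) : Decidable (x < y) := inferInstanceAs (Decidable (ltb x y = true))
instance (x y : P) : Decidable (x ⋖ y) :=
  inferInstanceAs (Decidable (x < y ∧ ∀ c : P, x < c → ¬ c < y))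

theorem nfree : ¬ ∃ a b c d : P, a < b ∧ c < b ∧ c < d ∧ ¬ a ≤ c ∧ ¬ c ≤ a ∧
    ¬ a ≤ d ∧ ¬ d ≤ a ∧ ¬ b ≤ d ∧ ¬ d ≤ b := by decide +kernel

theorem bip : ∃ col : P → Bool, ∀ x y : P, x ⋖ y → col x ≠ col y :=
  ⟨fun x => lev x % 2 == 0, by decide +kernel⟩

theorem cuts : ∀ x y : P, x ⋖ y → ∃ x' y' : P, x' ⋖ y' ∧ x' ⋖ y ∧ x ⋖ y' ∧ (x' ≠ x ∨ y' ≠ y) := by
  decide +kernel

def W : Finset (P × P) := {(a2, a5), (a3, a4), (a4, a6), (a0, a1), (a0, a2), (a1, a8), (a6, a8)}

def c (x y : P) : ℕ := if (x, y) ∈ W then 1 else 0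

theorem W_cov : ∀ p ∈ W, p.1 ⋖ p.2 := by decide +kernel

theorem cut_le : ∀ x y : P, x ⋖ y → (W.filter (fun p => p.1 ⋖ p.2 ∧ p.1 ⋖ y ∧ x ⋖ p.2)).card ≤ 2 := by
  decide +kernel

theorem fan_le : ∀ v : P, v ≠ a0 → v ≠ a8 →
    (W.filter (fun p => p.1 ⋖ p.2 ∧ (p.1 = v ∨ p.2 = v))).card ≤ 2 := by
  decide +kernel

theorem ext_le (L : P → ℕ) (hi : Function.Injective L) (h : ∀ x y : P, x < y → L x < L y) :
    (W.filter (fun p => L p.2 = L p.1 + 1)).card ≤ 3 := by
  rw [Finset.card_filter]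
  unfold W
  rw [Finset.sum_insert (by decide), Finset.sum_insert (by decide), Finset.sum_insert (by decide),
    Finset.sum_insert (by decide), Finset.sum_insert (by decide), Finset.sum_insert (by decide),
    Finset.sum_singleton]
  have n1 : L a1 ≠ L a2 := hi.ne (by decide)
  have n2 : L a2 ≠ L a3 := hi.ne (by decide)
  have n3 : L a4 ≠ L a5 := hi.ne (by decide)
  have n4 : L a6 ≠ L a7 := hi.ne (by decide)
  have n5 : L a1 ≠ L a6 := hi.ne (by decide)
  have l1 := h a0 a3 (by decide)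
  have l2 := h a3 a5 (by decide)
  have l3 := h a2 a4 (by decide)
  have l4 := h a5 a6 (by decide)
  have l5 := h a4 a7 (by decide)
  have l6 := h a7 a8 (by decide)
  have l7 := h a0 a2 (by decide)
  have l8 := h a2 a8 (by decide)
  simp only
  split_ifs <;> omega

end Pool.Agent.H.MP_4a5947_co
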